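import Mathlib
import Pool.Agent.H86.CMLib.R913.Adj.Rep
import Pool.Agent.H86.CMLib.R913.Adj.Nil
import Pool.Agent.H86.CMLib.R913.Adj.Core
import Pool.Agent.H86.CMLib.Y114.RM.Torus
import Pool.Agent.H86.CMLib.Y809.RM.BC
import Pool.Agent.H86.CMLib.Y86.RM.Tor
import Pool.Agent.H86.CMLib.Y960.RM.TH
import Pool.Agent.H86.CMLib.Y41.RM.Uni
import Pool.Agent.H86.CMLib.Y41.RM.LieL
import Pool.Agent.H86.CMLib.Y220.RM.TFR

/-!
# The Lie algebra of the Tate tensors of a semisimple representation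
-/

set_option autoImplicit false
set_option linter.unusedSectionVars false

namespace Pool.Agent.R913.Adj

open Module TensorProduct Pool.Agent.TH118.SG Pool.Agent.Y114.RM Pool.Agent.Y114.MU
  Pool.Agent.Y114.TF Pool.Agent.H204R3.GP Pool.Agent

section tensor

theorem rmi {k V Γ : Type} [Field k] [AddCommGroup V] [Module k V] [Group Γ]
    (ρ : Representation k Γ V) (γ : Γ) : ρ γ * ρ γ⁻¹ = 1 := by
  rw [← map_mul, mul_inv_cancel, map_one]

theorem rim {k V Γ : Type} [Field k] [AddCommGroup V] [Module k V] [Group Γ]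
    (ρ : Representation k Γ V) (γ : Γ) : ρ γ⁻¹ * ρ γ = 1 := by
  rw [← map_mul, inv_mul_cancel, map_one]

/-- Stable subspaces are images of equivariant projections. -/
theorem hasProj {k V Γ : Type} [Field k] [AddCommGroup V] [Module k V] [Group Γ]
    {ρ : Representation k Γ V} (h : FiniteIndexSemisimple ρ) (Δ : Subgroup Γ) (hΔ : Δ.FiniteIndex)
    (U : Submodule k V) (hU : ∀ s ∈ Δ, ∀ u ∈ U, ρ s u ∈ U) :
    ∃ P : Module.End k V, (∀ v, P v ∈ U) ∧ (∀ u ∈ U, P u = u) ∧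
      ∀ s ∈ Δ, ∀ v, P (ρ s v) = ρ s (P v) := by
  obtain ⟨U', hU', hc⟩ := h Δ hΔ U hU
  have hex : ∀ v : V, ∃ a ∈ U, ∃ b ∈ U', a + b = v := fun v =>
    Submodule.mem_sup.1 (by rw [hc.sup_eq_top]; trivial)
  let P : End k V := U.subtype ∘ₗ Submodule.projectionOnto U U' hc
  have hP : ∀ a ∈ U, ∀ b ∈ U', P (a + b) = a := by
    intro a ha b hb
    change ((Submodule.projectionOnto U U' hc (a + b) : U) : V) = a
    rw [map_add, Submodule.projectionOnto_apply_of_mem_right hc hb, add_zero]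
    exact congrArg Subtype.val (Submodule.projectionOnto_apply_left hc ⟨a, ha⟩)
  refine ⟨P, fun v => ?_, fun u hu => ?_, fun s hs v => ?_⟩
  · obtain ⟨a, ha, b, hb, rfl⟩ := hex v
    rw [hP a ha b hb]
    exact ha
  · have := hP u hu 0 (Submodule.zero_mem _)
    rwa [add_zero] at this
  · obtain ⟨a, ha, b, hb, rfl⟩ := hex v
    rw [hP a ha b hb, map_add, hP _ (hU s hs a ha) _ (hU' s hs b hb)]

variable {k : Type} [Field k] {V : Type} [AddCommGroup V] [Module k V] {Γ : Type} [Group Γ]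
  (ρ : Representation k Γ V)

/-- An endomorphism which kills the Tate tensors commutes with the endomorphisms which commute with
a subgroup of finite index. -/
theorem tate_comm {X : End k V}
    (hX : ∀ (m : ℕ) (φ : Tensor k V m), TateTensor ρ φ → KillsTensor X φ) {P : End k V}
    {Δ : Subgroup Γ} (hΔ : Δ.FiniteIndex) (hP : ∀ s ∈ Δ, P * ρ s = ρ s * P) : X * P = P * X := by
  let ω : (V × Dual k V) →ₗ[k] (V × Dual k V) →ₗ[k] k :=
    LinearMap.mk₂ k (fun a b => b.2 (P a.1))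
      (fun a a' b => by rw [Prod.fst_add, map_add, map_add])
      (fun c a b => by rw [Prod.smul_fst, map_smul, map_smul])
      (fun a b b' => by rw [Prod.snd_add, LinearMap.add_apply])
      (fun c a b => by rw [Prod.smul_snd, LinearMap.smul_apply])
  let φ : Tensor k V 2 := Pool.Agent.H204R3.SP.bil2 ω
  have hφ : ∀ v, φ v = (v 1).2 (P (v 0).1) := fun v => rfl
  have hT : TateTensor ρ φ := by
    refine ⟨Δ, hΔ, fun s hs v => ?_⟩
    rw [hφ, hφ]
    change (v 1).2 (ρ s⁻¹ (P (ρ s (v 0).1))) = (v 1).2 (P (v 0).1)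
    congr 1
    rw [← Module.End.mul_apply P, hP s hs, Module.End.mul_apply, ← Module.End.mul_apply,
      ← map_mul, inv_mul_cancel, map_one, Module.End.one_apply]
  have h1 := hX 2 φ hT
  refine LinearMap.ext fun x => ?_
  rw [← sub_eq_zero, ← Module.forall_dual_apply_eq_zero_iff k]
  intro ξ
  have h2 := h1 ![(x, 0), (0, ξ)]
  rw [Fin.sum_univ_two, hφ, hφ, Function.update_self, Function.update_self,
    Function.update_of_ne Fin.zero_ne_one.symm, Function.update_of_ne Fin.zero_ne_one] at h2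
  change ξ (P (X x)) + -(ξ (X (P x))) = 0 at h2
  rw [map_sub, Module.End.mul_apply, Module.End.mul_apply, sub_eq_zero]
  linear_combination -h2

/-- If the representation is semisimple, the endomorphisms which kill the Tate tensors preserve the
subspaces stable under a subgroup of finite index. -/
theorem mem_LT_of_semisimple (hss : FiniteIndexSemisimple ρ) {X : End k V}
    (hX : ∀ (m : ℕ) (φ : Tensor k V m), TateTensor ρ φ → KillsTensor X φ) : X ∈ LT ρ := by
  refine ⟨?_, hX⟩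
  rintro W ⟨Δ, hΔ, hW⟩ x hx
  obtain ⟨P, hP1, hP2, hP3⟩ := hasProj hss Δ hΔ W hW
  have h1 := tate_comm ρ hX (P := P) hΔ (fun s hs => LinearMap.ext fun v => hP3 s hs v)
  have h2 := LinearMap.congr_fun h1 x
  rw [Module.End.mul_apply, Module.End.mul_apply, hP2 x hx] at h2
  rw [h2]
  exact hP1 _

end tensor

section lie

variable {k : Type} [Field k] [CharZero k] {V : Type} [AddCommGroup V] [Module k V]
  [FiniteDimensional k V]

/-- Elements orthogonal to the Lie algebra of a tensor stabilizer are nilpotent. -/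
theorem nilpotent_of_orth {L : Submodule k (End k V)}
    (hcl : ∀ X, (∀ (m : ℕ) (φ : Tensor k V m), (∀ Y ∈ L, KillsTensor Y φ) → KillsTensor X φ) →
      X ∈ L) {X : End k V} (hX : X ∈ L)
    (h : ∀ Y ∈ L, LinearMap.trace k V (X * Y) = 0) : IsNilpotent X := by
  let C := AlgebraicClosure k
  have hC : ∀ s ∈ bcS C L, LinearMap.trace C (C ⊗[k] V) (X.baseChange C * s) = 0 := by
    intro s hs
    induction hs using Submodule.span_induction with
    | mem s hs =>
      obtain ⟨Y, hY, rfl⟩ := hs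
      rw [← bc_mul, LinearMap.trace_baseChange, h Y hY, map_zero]
    | zero => rw [mul_zero, map_zero]
    | add x y _ _ hx hy => rw [mul_add, map_add, hx, hy, add_zero]
    | smul c x _ hx => rw [mul_smul_comm, map_smul, hx, smul_zero]
  have hn : IsNilpotent (X.baseChange C) := nilpotent_of_traces _ fun f s hs =>
    hC s (rep_mem hcl f (mem_bcS hX) hs)
  obtain ⟨n, hn⟩ := hn
  refine ⟨n, bc_inj (C := C) ?_⟩
  have h1 : ∀ m : ℕ, (X ^ m).baseChange C = X.baseChange C ^ m := by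
    intro m
    induction m with
    | zero => rw [pow_zero, pow_zero, bc_one]
    | succ m ih => rw [pow_succ, pow_succ, bc_mul, ih]
  rw [h1, hn, LinearMap.baseChange_zero]

variable {Γ : Type} [Group Γ] {ρ : Representation k Γ V}

/-- The trace form is nondegenerate on the Lie algebra of the Tate tensors of a semisimple
representation. -/
theorem nonDeg_of_semisimple (hss : FiniteIndexSemisimple ρ) {L : Submodule k (End k V)}
    (hL : ∀ X, X ∈ L ↔ X ∈ LT ρ) (hLie : IsLie L)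
    (hAd : ∀ γ, ∀ X ∈ L, AdE (ρ γ) (ρ γ⁻¹) X ∈ L) : NonDeg L := by
  have hcl : ∀ X, (∀ (m : ℕ) (φ : Tensor k V m), (∀ Y ∈ L, KillsTensor Y φ) → KillsTensor X φ) →
      X ∈ L := fun X hX => (hL X).2 (mem_LT_of_semisimple ρ hss fun m φ hφ =>
        hX m φ fun Y hY => ((hL Y).1 hY).2 m φ hφ)
  -- the radical of the trace form
  let R : Submodule k (End k V) :=
    { carrier := {X | X ∈ L ∧ ∀ Y ∈ L, LinearMap.trace k V (X * Y) = 0}
      zero_mem' := ⟨L.zero_mem, fun Y _ => by rw [zero_mul, map_zero]⟩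
      add_mem' := fun {a b} ha hb => ⟨L.add_mem ha.1 hb.1, fun Y hY => by
        rw [add_mul, map_add, ha.2 Y hY, hb.2 Y hY, add_zero]⟩
      smul_mem' := fun c a ha => ⟨L.smul_mem c ha.1, fun Y hY => by
        rw [smul_mul_assoc, map_smul, ha.2 Y hY, smul_zero]⟩ }
  have hRm : ∀ X, X ∈ R ↔ X ∈ L ∧ ∀ Y ∈ L, LinearMap.trace k V (X * Y) = 0 := fun X => Iff.rfl
  have hRlie : ∀ X ∈ R, ∀ Y ∈ R, X * Y - Y * X ∈ R := by
    intro X hX Y hY
    refine (hRm _).2 ⟨hLie X hX.1 Y hY.1, fun Z hZ => ?_⟩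
    have h1 : LinearMap.trace k V ((X * Y - Y * X) * Z) =
        LinearMap.trace k V (X * (Y * Z - Z * Y)) := by
      rw [sub_mul, mul_sub, map_sub, map_sub, mul_assoc, mul_assoc Y, ← mul_assoc X Z Y,
        LinearMap.trace_mul_comm k Y]
    rw [h1]
    exact hX.2 _ (hLie Y hY.1 Z hZ)
  have hRnil : ∀ X ∈ R, IsNilpotent X := fun X hX => nilpotent_of_orth hcl hX.1 hX.2
  have hRad : ∀ γ, ∀ X ∈ R, AdE (ρ γ) (ρ γ⁻¹) X ∈ R := by
    intro γ X hX
    refine (hRm _).2 ⟨hAd γ X hX.1, fun Y hY => ?_⟩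
    have h1 := hX.2 _ (hAd γ⁻¹ Y hY)
    rw [AdE_apply, inv_inv] at h1
    rw [AdE_apply]
    have h2 : LinearMap.trace k V (ρ γ * (X * ρ γ⁻¹) * Y) =
        LinearMap.trace k V (X * (ρ γ⁻¹ * (Y * ρ γ))) := by
      rw [mul_assoc, LinearMap.trace_mul_comm]
      simp only [mul_assoc]
    rw [h2, h1]
  -- the common kernel
  let W : Submodule k V :=
    { carrier := {v | ∀ X ∈ R, X v = 0}
      zero_mem' := fun X _ => map_zero X
      add_mem' := fun {a b} ha hb X hX => by rw [map_add, ha X hX, hb X hX, add_zero]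
      smul_mem' := fun c a ha X hX => by rw [map_smul, ha X hX, smul_zero] }
  have hWst : ∀ s ∈ (⊤ : Subgroup Γ), ∀ u ∈ W, ρ s u ∈ W := by
    intro s _ u hu X hX
    have h1 := hu _ (hRad s⁻¹ X hX)
    rw [AdE_apply, inv_inv] at h1
    have h2 : X (ρ s u) = ρ s ((ρ s⁻¹ * (X * ρ s)) u) := by
      rw [Module.End.mul_apply, Module.End.mul_apply, ← Module.End.mul_apply (ρ s), rmi,
        Module.End.one_apply]
    rw [h2, h1, map_zero]
  obtain ⟨U, hU, hc⟩ := hss ⊤ inferInstance W hWst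
  have hUR : ∀ X ∈ R, ∀ u ∈ U, X u ∈ U := fun X hX u hu =>
    ((hL X).1 hX.1).1 U ⟨⊤, inferInstance, hU⟩ u hu
  have hUbot : U = ⊥ := by
    by_contra hne
    obtain ⟨u, hu, hu0, hk⟩ := exists_killed hRlie hRnil hUR hne
    exact hu0 ((Submodule.disjoint_def.1 hc.disjoint) u hk hu)
  have hWtop : W = ⊤ := by
    have h1 := hc.sup_eq_top
    rwa [hUbot, sup_bot_eq] at h1
  intro X hX hXt
  refine LinearMap.ext fun v => ?_
  have hv : v ∈ W := by
    rw [hWtop]
    trivial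
  exact hv X ⟨hX, hXt⟩

/-- The operators attached to group elements are in the Lie algebra. -/
theorem op_mem (C : Type) [Field C] [CharZero C] [IsAlgClosed C] [Algebra k C]
    {L : Submodule k (End k V)} (hL : ∀ X, X ∈ L ↔ X ∈ LT ρ) (γ : Γ)
    (θ : Additive Cˣ →+ C) (Y : End C (C ⊗[k] V)) (hY : IsOp θ ((ρ γ).baseChange C) Y) :
    Y ∈ bcS C L := by
  rw [(Y809.RM.BC.bc k C V L).1]
  intro π
  rw [hL]
  have htor : S_TOR := Y86.RM.tor Y960.RM.res
  refine ⟨?_, ?_⟩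
  · rintro W ⟨Δ, hΔ, hW⟩
    obtain ⟨M, hM0, -, hM⟩ := Subgroup.exists_pow_mem_of_index_ne_zero hΔ.index_ne_zero γ
    exact (htor k C V (ρ γ) (ρ γ⁻¹) (rmi ρ γ) (rim ρ γ) θ Y hY M hM0 π).2 W
      (fun x hx => by rw [← map_pow]; exact hW _ hM x hx)
  · rintro m φ ⟨Δ, hΔ, hφ⟩
    obtain ⟨M, hM0, -, hM⟩ := Subgroup.exists_pow_mem_of_index_ne_zero hΔ.index_ne_zero γ
    exact (htor k C V (ρ γ) (ρ γ⁻¹) (rmi ρ γ) (rim ρ γ) θ Y hY M hM0 π).1 m φ
      (fun v => by rw [← map_pow, ← map_pow, inv_pow]; exact hφ _ hM v)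

/-- The centralizer of a space of endomorphisms. -/
def comm (L : Submodule k (End k V)) : Submodule k (End k V) where
  carrier := {Y | ∀ X ∈ L, X * Y = Y * X}
  add_mem' := fun ha hb X hX => by rw [mul_add, add_mul, ha X hX, hb X hX]
  zero_mem' := fun X hX => by rw [mul_zero, zero_mul]
  smul_mem' := fun c a ha X hX => by rw [mul_smul_comm, smul_mul_assoc, ha X hX]

theorem comm_conj {L : Submodule k (End k V)} (hAd : ∀ γ, ∀ X ∈ L, AdE (ρ γ) (ρ γ⁻¹) X ∈ L)
    (γ : Γ) : ∀ Y ∈ comm L, AdE (ρ γ) (ρ γ⁻¹) Y ∈ comm L := by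
  intro Y hY X hX
  have h1 := hY _ (hAd γ⁻¹ X hX)
  rw [AdE_apply, inv_inv] at h1
  rw [AdE_apply]
  have h2 : ρ γ * (ρ γ⁻¹ * (X * ρ γ) * Y) * ρ γ⁻¹ = ρ γ * (Y * (ρ γ⁻¹ * (X * ρ γ))) * ρ γ⁻¹ := by
    rw [h1]
  have h3 : ρ γ * (ρ γ⁻¹ * (X * ρ γ) * Y) * ρ γ⁻¹ = X * (ρ γ * (Y * ρ γ⁻¹)) := by
    simp only [mul_assoc]
    rw [← mul_assoc (ρ γ) (ρ γ⁻¹), rmi, one_mul]
  have h4 : ρ γ * (Y * (ρ γ⁻¹ * (X * ρ γ))) * ρ γ⁻¹ = ρ γ * (Y * ρ γ⁻¹) * X := by
    simp only [mul_assoc]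
    rw [rmi, mul_one]
  rw [h3, h4] at h2
  exact h2

/-- Every group element acts with finite order on the centralizer. -/
theorem comm_order {L : Submodule k (End k V)}
    (hL : ∀ X, X ∈ L ↔ X ∈ LT ρ) (γ : Γ) :
    ∃ M : ℕ, 0 < M ∧ ∀ Y ∈ comm L, ρ γ ^ M * Y = Y * ρ γ ^ M := by
  let C := AlgebraicClosure k
  obtain ⟨N, M, hN, hM, h1, h3, h4⟩ := Y41.RM.uni k C V (ρ γ) (ρ γ⁻¹) (rmi ρ γ)
    (rim ρ γ)
  have hNL : N ∈ bcS C L := by
    rw [(Y809.RM.BC.bc k C V L).1]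
    intro π
    rw [hL]
    refine ⟨?_, ?_⟩
    · rintro W ⟨Δ, hΔ, hW⟩
      obtain ⟨M, hM0, -, hM⟩ := Subgroup.exists_pow_mem_of_index_ne_zero hΔ.index_ne_zero γ
      exact (h3 M hM0 π).1 W (fun x hx => by rw [← map_pow]; exact hW _ hM x hx)
    · rintro m φ ⟨Δ, hΔ, hφ⟩
      obtain ⟨M, hM0, -, hM⟩ := Subgroup.exists_pow_mem_of_index_ne_zero hΔ.index_ne_zero γ
      exact (h3 M hM0 π).2 m φ
        (fun v => by rw [← map_pow, ← map_pow, inv_pow]; exact hφ _ hM v)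
  refine ⟨M, hM, fun Y hY => ?_⟩
  have h5 := h4 (Y.baseChange C) (bcS_comm hY N hNL) fun θ Z hZ =>
    bcS_comm hY Z (op_mem C hL γ θ Z hZ)
  rw [← bc_mul, ← bc_mul] at h5
  exact bc_inj h5

end lie

end Pool.Agent.R913.Adj
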