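import Mathlib
import Pool.Agent.H86.CMLib.R913.Adj.Semi
import Pool.Agent.H86.CMLib.R913.Adj.Four

/-!
# The Mumford-Tate conjecture and the adjoint motive
-/

set_option autoImplicit false
set_option linter.unusedSectionVars false

namespace Pool.Agent.R913.Adj

open Module TensorProduct Polynomial Pool.Agent.TH118.SG Pool.Agent.Y114.RM Pool.Agent.Y114.MU
  Pool.Agent.Y114.TF Pool.Agent.H204R3.GP Pool.Agent

section maps

variable {k : Type} [Field k] {V W : Type} [AddCommGroup V] [Module k V] [AddCommGroup W]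
  [Module k W] {Γ : Type} [Group Γ]

/-- `T` commutes with the operators `a` and `b`: `T (a A) = b (T A)` for all `A`. -/
def Commutes (T : End k V →ₗ[k] End k W) (a : End k (End k V)) (b : End k (End k W)) : Prop :=
  ∀ A, T (a A) = b (T A)

/-- The linear map `T : End V → End W` commutes with the conjugations by the elements of a subgroup
of finite index. -/
def IsTateMap (ρ : Representation k Γ V) (σ : Representation k Γ W)
    (T : End k V →ₗ[k] End k W) : Prop :=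
  ∃ Δ : Subgroup Γ, Δ.FiniteIndex ∧
    ∀ γ ∈ Δ, Commutes T (AdE (ρ γ) (ρ γ⁻¹)) (AdE (σ γ) (σ γ⁻¹))

/-- `T` commutes with the adjoint actions of `X` and `Y`: `T [X, A] = [Y, T A]` for all `A`. -/
def CommutesAd (T : End k V →ₗ[k] End k W) (X : End k V) (Y : End k W) : Prop :=
  Commutes T (adE X) (adE Y)

end maps

section defs

variable {k : Type} [Field k] {ι : Type} [DecidableEq ι] {V : ι → Type}
  [∀ i, AddCommGroup (V i)] [∀ i, Module k (V i)] {Γ : Type} [Group Γ]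

/-- `T : End (V i) → End (V j)` commutes with the adjoint actions of `𝔤`. -/
def CommutesWith (𝔤 : Submodule k (End k (∀ i, V i))) (i j : ι)
    (T : End k (V i) →ₗ[k] End k (V j)) : Prop :=
  ∀ X ∈ 𝔤, CommutesAd T (bl i X) (bl j X)

/-- Every linear map `T : End (V i) → End (V j)` which commutes with the conjugations by the
elements of a subgroup of finite index commutes with the adjoint actions of `𝔤`. -/
def AdjointMaps (ρ : ∀ i, Representation k Γ (V i)) (𝔤 : Submodule k (End k (∀ i, V i))) : Prop :=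
  ∀ (i j : ι) (T : End k (V i) →ₗ[k] End k (V j)),
    IsTateMap (ρ i) (ρ j) T → CommutesWith 𝔤 i j T

end defs

section sum

variable {k : Type} [Field k] {ι : Type} [DecidableEq ι] {V : ι → Type}
  [∀ i, AddCommGroup (V i)] [∀ i, Module k (V i)] {Γ : Type} [Group Γ]
  (ρ : ∀ i, Representation k Γ (V i))

theorem sum_diag (γ : Γ) : Diag (sumRep ρ γ) := by
  intro x i
  change ρ i γ (x i) = ρ i γ ((Pi.single i (x i) : ∀ i, V i) i)
  rw [Pi.single_eq_same]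

theorem bl_sum (γ : Γ) (i : ι) : bl i (sumRep ρ γ) = ρ i γ := by
  refine LinearMap.ext fun x => ?_
  change ρ i γ ((Pi.single i x : ∀ i, V i) i) = ρ i γ x
  rw [Pi.single_eq_same]

theorem em_conj (γ : Γ) (i : ι) (A : End k (V i)) :
    em i (ρ i γ * (A * ρ i γ⁻¹)) = sumRep ρ γ * (em i A * sumRep ρ γ⁻¹) := by
  refine LinearMap.ext fun x => funext fun j => ?_
  rw [em_apply]
  change (Pi.single i (ρ i γ (A (ρ i γ⁻¹ (x i)))) : ∀ i, V i) j =
    ρ j γ ((Pi.single i (A (ρ i γ⁻¹ (x i))) : ∀ i, V i) j)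
  by_cases h : j = i
  · subst h
    rw [Pi.single_eq_same, Pi.single_eq_same]
  · rw [Pi.single_eq_of_ne h, Pi.single_eq_of_ne h, map_zero]

theorem bl_conj (γ : Γ) (j : ι) (B : End k (∀ i, V i)) :
    bl j (sumRep ρ γ * (B * sumRep ρ γ⁻¹)) = ρ j γ * (bl j B * ρ j γ⁻¹) := by
  refine LinearMap.ext fun x => ?_
  change ρ j γ (B (sumRep ρ γ⁻¹ (Pi.single j x)) j) = ρ j γ (B (Pi.single j (ρ j γ⁻¹ x)) j)
  have h1 : sumRep ρ γ⁻¹ (Pi.single j x) = (Pi.single j (ρ j γ⁻¹ x) : ∀ i, V i) := by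
    funext i
    change ρ i γ⁻¹ ((Pi.single j x : ∀ i, V i) i) = _
    by_cases h : i = j
    · subst h
      rw [Pi.single_eq_same, Pi.single_eq_same]
    · rw [Pi.single_eq_of_ne h, Pi.single_eq_of_ne h, map_zero]
  rw [h1]

/-- The Mumford-Tate conjecture for tensors in four variables implies the property of the adjoint
maps. -/
theorem adjointMaps_of_kills [Fintype ι] [∀ i, FiniteDimensional k (V i)]
    {𝔤 : Submodule k (End k (∀ i, V i))} (hd : ∀ X ∈ 𝔤, Diag X)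
    (h : ∀ (m : ℕ) (φ : Tensor k (∀ i, V i) m), TateTensor (sumRep ρ) φ →
      ∀ X ∈ 𝔤, KillsTensor X φ) : AdjointMaps ρ 𝔤 := by
  rintro i j T ⟨Δ, hΔ, hT'⟩ X hX A
  have hT : ∀ γ ∈ Δ, ∀ A, T (ρ i γ * (A * ρ i γ⁻¹)) = ρ j γ * (T A * ρ j γ⁻¹) := hT'
  let T' : End k (∀ i, V i) →ₗ[k] End k (∀ i, V i) := em j ∘ₗ T ∘ₗ bl i
  have h1 := tate_map (sumRep ρ) (fun m φ hφ => h m φ hφ X hX) (T := T') hΔ (by
    intro γ hγ B
    change em j (T (bl i (sumRep ρ γ * (B * sumRep ρ γ⁻¹)))) =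
      sumRep ρ γ * (em j (T (bl i B)) * sumRep ρ γ⁻¹)
    rw [bl_conj, hT γ hγ, em_conj]) (em i A)
  have h2 := congrArg (bl j) h1
  change bl j (em j (T (bl i (X * em i A - em i A * X)))) =
    bl j (X * em j (T (bl i (em i A))) - em j (T (bl i (em i A))) * X) at h2
  rw [bl_em_same, bl_em_same, map_sub (bl i), map_sub (bl j), bl_mul (hd X hX),
    bl_mul (em_diag i A), bl_mul (hd X hX), bl_mul (em_diag j _), bl_em_same, bl_em_same] at h2
  exact h2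

end sum

section main

variable {ι : Type} [Fintype ι] [DecidableEq ι] {n : ι → ℕ} {ℓ : ℕ} [hℓ : Fact ℓ.Prime]
  {Γ : Type} [Group Γ] [TopologicalSpace Γ] [IsTopologicalGroup Γ] [CompactSpace Γ]

/-- The brackets of elements of the motivic Lie algebra kill all Tate tensors. -/
theorem derived_le (ρ : ∀ i, Representation ℚ_[ℓ] Γ (Fin (n i) → ℚ_[ℓ]))
    (hρ : ∀ i, Continuous fun g => LinearMap.toMatrix' (ρ i g))
    {𝔤 : Submodule ℚ_[ℓ] (End ℚ_[ℓ] (∀ i, Fin (n i) → ℚ_[ℓ]))} (h𝔤 : IsMotivic ρ 𝔤)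
    (hss : FiniteIndexSemisimple (sumRep ρ)) (had : AdjointMaps ρ 𝔤) :
    ∀ X ∈ 𝔤, ∀ Y ∈ 𝔤, ∀ (m : ℕ) (φ : Tensor ℚ_[ℓ] (∀ i, Fin (n i) → ℚ_[ℓ]) m),
      TateTensor (sumRep ρ) φ → KillsTensor (X * Y - Y * X) φ := by
  obtain ⟨L, hL, hLie, hAd, -⟩ := Y41.RM.lieL' ℚ_[ℓ] (∀ i, Fin (n i) → ℚ_[ℓ]) Γ (sumRep ρ)
  have hnd : NonDeg L := nonDeg_of_semisimple hss hL hLie hAd
  have hLG : L ≤ 𝔤 := fun X hX => h𝔤.algebraic X fun m φ h =>
    ((hL X).1 hX).2 m φ (h𝔤.tate m φ h)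
  have hd : ∀ X ∈ 𝔤, Diag X := h𝔤.parts
  obtain ⟨P, hP⟩ := exists_proj hnd
  have hPc : ∀ γ A, P (sumRep ρ γ * (A * sumRep ρ γ⁻¹)) = sumRep ρ γ * (P A * sumRep ρ γ⁻¹) := by
    intro γ A
    refine hP.conj hnd (fun X hX => hAd γ X hX) (fun X hX => ?_) A
    have h1 := hAd γ⁻¹ X hX
    rw [AdE_apply, inv_inv] at h1
    exact h1
  have hid : ∀ X ∈ 𝔤, ∀ Y ∈ L, X * Y - Y * X ∈ L := by
    refine hP.ideal hLG hd fun i j X hX A => ?_
    exact had i j (bl (K := ℚ_[ℓ]) (V := fun i => Fin (n i) → ℚ_[ℓ]) j ∘ₗ P ∘ₗ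
      em (K := ℚ_[ℓ]) (V := fun i => Fin (n i) → ℚ_[ℓ]) i) ⟨⊤, inferInstance, fun γ _ A => by
      change bl j (P (em i (ρ i γ * (A * ρ i γ⁻¹)))) = ρ j γ * (bl j (P (em i A)) * ρ j γ⁻¹)
      rw [em_conj, hPc, bl_conj]⟩ X hX A
  -- elements commuting with `L` are central
  obtain ⟨Δ, hΔ, hcΔ⟩ := Y220.RM.tfr ℓ ι n Γ ρ hρ (comm L) (comm_conj hAd) (comm_order hL)
  have hcen : ∀ Z ∈ 𝔤, (∀ W ∈ L, Z * W = W * Z) → ∀ X ∈ 𝔤, Z * X = X * Z := by
    intro Z hZ hZL X hX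
    have h1 : ∀ γ ∈ Δ, sumRep ρ γ * Z = Z * sumRep ρ γ := fun γ hγ =>
      hcΔ γ hγ Z fun W hW => (hZL W hW).symm
    refine ((hd Z hZ).mul (hd X hX)).ext ((hd X hX).mul (hd Z hZ)) fun i => ?_
    have h2 : ∀ γ ∈ Δ, ρ i γ * bl i Z = bl i Z * ρ i γ := by
      intro γ hγ
      have h3 := congrArg (bl i) (h1 γ hγ)
      rw [bl_mul (sum_diag ρ γ), bl_mul (hd Z hZ), bl_sum] at h3
      exact h3
    have h4 := had i i (LinearMap.mulLeft ℚ_[ℓ] (bl i Z)) ⟨Δ, hΔ, fun γ hγ A => by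
      rw [LinearMap.mulLeft_apply, LinearMap.mulLeft_apply, AdE_apply, AdE_apply, ← mul_assoc,
        ← h2 γ hγ]
      simp only [mul_assoc]⟩ X hX 1
    rw [LinearMap.mulLeft_apply, LinearMap.mulLeft_apply, adE_apply, adE_apply, mul_one, mul_one,
      one_mul, sub_self, mul_zero] at h4
    rw [bl_mul (hd Z hZ), bl_mul (hd X hX)]
    exact (sub_eq_zero.1 h4.symm).symm
  intro X hX Y hY m φ hφ
  obtain ⟨X', hX', Z, hZ, rfl, hZL⟩ := hP.split hnd hLG hid hX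
  obtain ⟨Y', hY', W, hW, rfl, hWL⟩ := hP.split hnd hLG hid hY
  have h5 : (X' + Z) * (Y' + W) - (Y' + W) * (X' + Z) = X' * Y' - Y' * X' := by
    have e1 := hcen Z hZ hZL _ hY
    have e2 := hWL X' hX'
    have e3 := hcen Z hZ hZL W hW
    have e4 := hZL Y' hY'
    rw [add_mul, mul_add, mul_add, add_mul, mul_add, mul_add, e2, e3, e4]
    abel
  rw [h5]
  exact ((hL _).1 (hLie X' hX' Y' hY')).2 m φ hφ

end main

end Pool.Agent.R913.Adj
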