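import Mathlib
import Pool.Agent.H86.CMLib.R913.Adj.Main

/-!
# The weight operator is in the Lie algebra of the Tate tensors
-/

set_option autoImplicit false
set_option linter.unusedSectionVars false

namespace Pool.Agent.R913.Adj

open Module TensorProduct Polynomial Pool.Agent.TH118.SG Pool.Agent.Y114.RM Pool.Agent.Y114.MU
  Pool.Agent.Y114.TF Pool.Agent.H204R3.GP Pool.Agent

section Emb

open Cardinal

theorem card_padic_le (p : ℕ) [Fact p.Prime] : #ℚ_[p] ≤ 𝔠 := by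
  have h1 : #ℚ_[p] ≤ #(CauSeq ℚ (padicNorm p)) := Cardinal.mk_le_of_surjective
    (f := fun x => (Quotient.mk _ x : ℚ_[p])) (by
      intro x
      exact Quotient.exists_rep x)
  refine h1.trans ((Cardinal.mk_subtype_le _).trans ?_)
  have h2 : #(ℕ → ℚ) = 𝔠 := by
    rw [Cardinal.mk_arrow]
    simp
  exact h2.le

theorem exists_emb (p : ℕ) [Fact p.Prime] : Nonempty (ℚ_[p] →+* ℂ) := by
  have hge : 𝔠 ≤ #ℚ_[p] := continuum_le_cardinal_of_nontriviallyNormedField ℚ_[p]
  have h1 : #(AlgebraicClosure ℚ_[p]) ≤ 𝔠 := by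
    refine (Algebra.IsAlgebraic.cardinalMk_le_max ℚ_[p] (AlgebraicClosure ℚ_[p])).trans ?_
    exact max_le (card_padic_le p) Cardinal.aleph0_le_continuum
  have h2 : 𝔠 ≤ #(AlgebraicClosure ℚ_[p]) :=
    hge.trans (Cardinal.mk_le_of_injective (algebraMap ℚ_[p] (AlgebraicClosure ℚ_[p])).injective)
  have h3 : #(AlgebraicClosure ℚ_[p]) = #ℂ := by
    rw [le_antisymm h1 h2, Cardinal.mk_complex]
  obtain ⟨e⟩ := IsAlgClosed.ringEquiv_of_equiv_of_charZero (K := AlgebraicClosure ℚ_[p]) (L := ℂ)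
    (by rw [le_antisymm h1 h2]; exact Cardinal.aleph0_lt_continuum) (Cardinal.eq.1 h3)
  exact ⟨e.toRingHom.comp (algebraMap ℚ_[p] (AlgebraicClosure ℚ_[p]))⟩

end Emb

/-- Twice the logarithm of the absolute value, to the base `q`. -/
noncomputable def lg2 (q : ℝ) : Additive ℂˣ →+ ℂ where
  toFun a := ((2 * Real.log ‖((Additive.toMul a : ℂˣ) : ℂ)‖ / Real.log q : ℝ) : ℂ)
  map_zero' := by simp
  map_add' a b := by
    rw [toMul_add, Units.val_mul, norm_mul, Real.log_mul (norm_ne_zero_iff.2 (Units.ne_zero _))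
      (norm_ne_zero_iff.2 (Units.ne_zero _)), mul_add, add_div]
    push_cast
    rfl

theorem ext0_lg2 {q : ℝ} {z : ℂ} (hz : z ≠ 0) :
    ext0 (lg2 q) z = ((2 * Real.log ‖z‖ / Real.log q : ℝ) : ℂ) := by
  rw [ext0_ne _ hz]
  rfl

theorem ext0_of_pure {q : ℝ} (hq : 1 < q) {z : ℂ} {w : ℤ} (h : ‖z‖ ^ 2 = q ^ w) :
    ext0 (lg2 q) z = (w : ℂ) := by
  have hq0 : (0 : ℝ) < q := lt_trans one_pos hq
  have hz : z ≠ 0 := by
    intro h0
    rw [h0, norm_zero] at h
    have h1 := zpow_pos hq0 w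
    rw [← h] at h1
    norm_num at h1
  rw [ext0_lg2 hz]
  have h2 : 2 * Real.log ‖z‖ = w * Real.log q := by
    have h3 := congrArg Real.log h
    rw [Real.log_pow, Real.log_zpow] at h3
    exact_mod_cast h3
  have h4 : Real.log q ≠ 0 := (Real.log_pos hq).ne'
  rw [h2, mul_div_assoc, div_self h4, mul_one]
  push_cast
  rfl

theorem bc_sum {k C V : Type} [Field k] [Field C] [Algebra k C] [AddCommGroup V] [Module k V]
    {ι : Type} (s : Finset ι) (f : ι → End k V) :
    (∑ i ∈ s, f i).baseChange C = ∑ i ∈ s, (f i).baseChange C := by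
  classical
  induction s using Finset.induction_on with
  | empty => rw [Finset.sum_empty, Finset.sum_empty, LinearMap.baseChange_zero]
  | insert a s ha ih =>
    rw [Finset.sum_insert ha, Finset.sum_insert ha, LinearMap.baseChange_add, ih]

section weight

variable {ι : Type} [Fintype ι] [DecidableEq ι] {n : ι → ℕ} {ℓ : ℕ} [hℓ : Fact ℓ.Prime]
  {Γ : Type} [Group Γ]

/-- The operator which is the multiplication by `w i` on the `i`-th summand. -/
noncomputable def weightOp {k : Type} [Field k] {ι : Type} [Fintype ι] [DecidableEq ι]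
    (V : ι → Type) [∀ i, AddCommGroup (V i)] [∀ i, Module k (V i)] (w : ι → ℤ) :
    End k (∀ i, V i) :=
  LinearMap.pi fun i => (w i : k) • LinearMap.proj i

/-- The element acts with rational characteristic polynomials whose roots have the absolute values
`q ^ (w i / 2)`, for one real number `q > 1` (like a Frobenius element). -/
def ActsPurely (ρ : ∀ i, Representation ℚ_[ℓ] Γ (Fin (n i) → ℚ_[ℓ])) (w : ι → ℤ) (γ : Γ) : Prop :=
  ∃ (q : ℝ) (P : ι → ℚ[X]), 1 < q ∧ ∀ i, (ρ i γ).charpoly = (P i).map (algebraMap ℚ ℚ_[ℓ]) ∧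
    ∀ a ∈ (P i).aroots ℂ, ‖a‖ ^ 2 = q ^ w i

theorem weight_kills (ρ : ∀ i, Representation ℚ_[ℓ] Γ (Fin (n i) → ℚ_[ℓ]))
    (hss : FiniteIndexSemisimple (sumRep ρ)) {w : ι → ℤ} {γ : Γ} (hγ : ActsPurely ρ w γ) (m : ℕ)
    (φ : Tensor ℚ_[ℓ] (∀ i, Fin (n i) → ℚ_[ℓ]) m) (hφ : TateTensor (sumRep ρ) φ) :
    KillsTensor (weightOp (k := ℚ_[ℓ]) (fun i => Fin (n i) → ℚ_[ℓ]) w) φ := by
  obtain ⟨L, hL, -, -, -⟩ := Y41.RM.lieL' ℚ_[ℓ] (∀ i, Fin (n i) → ℚ_[ℓ]) Γ (sumRep ρ)
  obtain ⟨q, P, hq, hP⟩ := hγ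
  obtain ⟨j⟩ := exists_emb ℓ
  let alg : Algebra ℚ_[ℓ] ℂ := j.toAlgebra
  obtain ⟨W, hW⟩ : ∃ W, W = weightOp (k := ℚ_[ℓ]) (fun i => Fin (n i) → ℚ_[ℓ]) w := ⟨_, rfl⟩
  rw [← hW]
  have hop : IsOp (lg2 q) ((sumRep ρ γ).baseChange ℂ) (W.baseChange ℂ) := by
    intro β x hx
    -- the components
    let e : ∀ i, End ℚ_[ℓ] (∀ i, Fin (n i) → ℚ_[ℓ]) := fun i =>
      em (K := ℚ_[ℓ]) (V := fun i => Fin (n i) → ℚ_[ℓ]) i 1
    have he1 : (1 : End ℚ_[ℓ] (∀ i, Fin (n i) → ℚ_[ℓ])) = ∑ i, e i := by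
      refine LinearMap.ext fun x => funext fun l => ?_
      rw [LinearMap.sum_apply, Finset.sum_apply, Finset.sum_eq_single l]
      · change x l = (Pi.single l (x l) : ∀ i, Fin (n i) → ℚ_[ℓ]) l
        rw [Pi.single_eq_same]
      · intro i _ hil
        exact Pi.single_eq_of_ne (Ne.symm hil) _
      · intro h
        exact absurd (Finset.mem_univ l) h
    have he2 : W = ∑ i, (w i : ℚ_[ℓ]) • e i := by
      refine LinearMap.ext fun x => funext fun l => ?_
      rw [LinearMap.sum_apply, Finset.sum_apply, Finset.sum_eq_single l]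
      · rw [hW]
        change (w l : ℚ_[ℓ]) • x l =
          (w l : ℚ_[ℓ]) • (Pi.single l (x l) : ∀ i, Fin (n i) → ℚ_[ℓ]) l
        rw [Pi.single_eq_same]
      · intro i _ hil
        change (w i : ℚ_[ℓ]) • (Pi.single i (x i) : ∀ i, Fin (n i) → ℚ_[ℓ]) l = 0
        rw [Pi.single_eq_of_ne (Ne.symm hil), smul_zero]
      · intro h
        exact absurd (Finset.mem_univ l) h
    have hx1 : x = ∑ i, (e i).baseChange ℂ x := by
      have h1 : (1 : End ℚ_[ℓ] (∀ i, Fin (n i) → ℚ_[ℓ])).baseChange ℂ x =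
          ∑ i, (e i).baseChange ℂ x := by
        rw [he1, bc_sum, LinearMap.sum_apply]
      rwa [bc_one, Module.End.one_apply] at h1
    have hx2 : W.baseChange ℂ x = ∑ i, (w i : ℂ) • (e i).baseChange ℂ x := by
      rw [he2, bc_sum, LinearMap.sum_apply]
      refine Finset.sum_congr rfl fun i _ => ?_
      rw [LinearMap.baseChange_smul, LinearMap.smul_apply, ← algebraMap_smul ℂ, map_intCast]
    rw [hx2]
    conv_rhs => rw [hx1, Finset.smul_sum]
    refine Finset.sum_congr rfl fun i _ => ?_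
    have hz : (LinearMap.proj (R := ℚ_[ℓ]) (φ := fun i => Fin (n i) → ℚ_[ℓ]) i).baseChange ℂ x ∈
        Module.End.maxGenEigenspace ((ρ i γ).baseChange ℂ : End ℂ (ℂ ⊗[ℚ_[ℓ]] (Fin (n i) → ℚ_[ℓ])))
          β := by
      refine Y86.RM.map_gen (f₁ := (sumRep ρ γ).baseChange ℂ) (fun y => ?_) hx
      induction y using TensorProduct.induction_on with
      | zero => simp only [map_zero]
      | tmul c v => simp only [LinearMap.baseChange_tmul]; rfl
      | add a b ha hb => simp only [map_add, ha, hb]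
    by_cases h0 : (LinearMap.proj (R := ℚ_[ℓ]) (φ := fun i => Fin (n i) → ℚ_[ℓ]) i).baseChange ℂ x
      = 0
    · have h1 : (e i).baseChange ℂ x = 0 := by
        have h2 : e i = (LinearMap.single ℚ_[ℓ] (fun i => Fin (n i) → ℚ_[ℓ]) i) ∘ₗ
            (LinearMap.proj i) := rfl
        rw [h2, LinearMap.baseChange_comp, LinearMap.comp_apply, h0, map_zero]
      rw [h1, smul_zero, smul_zero]
    · have h1 : Module.End.HasEigenvalue
          ((ρ i γ).baseChange ℂ : End ℂ (ℂ ⊗[ℚ_[ℓ]] (Fin (n i) → ℚ_[ℓ]))) β := by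
        refine (Module.End.hasUnifEigenvalue_iff_hasUnifEigenvalue_one (k := ⊤) (by simp)).1 ?_
        intro h2
        have h3 := hz
        rw [Module.End.maxGenEigenspace, h2] at h3
        exact h0 ((Submodule.mem_bot ℂ).1 h3)
      have h2 : β ∈ (P i).aroots ℂ := by
        have h3 := (Module.End.hasEigenvalue_iff_isRoot_charpoly _ _).1 h1
        rw [LinearMap.charpoly_baseChange, (hP i).1, Polynomial.map_map] at h3
        have h4 : (algebraMap ℚ_[ℓ] ℂ).comp (algebraMap ℚ ℚ_[ℓ]) = algebraMap ℚ ℂ :=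
          Subsingleton.elim _ _
        rw [h4] at h3
        have h5 : P i ≠ 0 := by
          intro h6
          have h7 := (ρ i γ).charpoly_monic.ne_zero
          rw [(hP i).1, h6, Polynomial.map_zero] at h7
          exact h7 rfl
        rw [Polynomial.mem_aroots]
        refine ⟨h5, ?_⟩
        rw [Polynomial.aeval_def, ← Polynomial.eval_map]
        exact h3
      rw [ext0_of_pure hq ((hP i).2 β h2)]
  have h1 := op_mem ℂ hL γ (lg2 q) (W.baseChange ℂ) hop
  rw [(Y809.RM.BC.bc ℚ_[ℓ] ℂ _ L).1] at h1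
  obtain ⟨π, hπ⟩ := exists_pi ℚ_[ℓ] ℂ
  have h2 := h1 π
  rw [pM_bc π hπ] at h2
  exact ((hL W).1 h2).2 m φ hφ

end weight

end Pool.Agent.R913.Adj
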